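import Pool.Agent.H571Z.Flo.Main

set_option autoImplicit false

namespace Pool.Agent.Results.MP_1bac39_an.Pathology

open Pool.Agent.H571Z.Flo

/-- A fourth-order periodic operator with real analytic coefficients whose Floquet matrix has a
pathology of the first kind over `0`, where it is moreover diagonalizable. -/
theorem result : ∃ (p : ℕ → ℝ → ℝ) (T : ℂ → Matrix (Fin 4) (Fin 4) ℂ),
    (∀ k, ContDiff ℝ ⊤ (p k) ∧ Function.Periodic (p k) Real.pi) ∧
    IsFloquetMatrix 4 Real.pi (fun k x => (p k x : ℂ)) T ∧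
    (∀ i j, Differentiable ℂ fun l => T l i j) ∧ FirstKind T 0 ∧ ⨆ μ, eig (T 0) μ = ⊤ :=
  main

end Pool.Agent.Results.MP_1bac39_an.Pathology
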